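import Pool.Agent.N212.FQ.Stm

set_option autoImplicit false

namespace Pool.Agent.N148.FQ

theorem t_pair : Pool.Agent.N212.FQ.S_PAIR := by
  intro K e c hK hcl
  rcases Nat.eq_zero_or_pos e with he | he
  · subst he
    have hK0 : K = 0 := by omega
    subst hK0
    exact ⟨fun i => i, fun i => i.elim0, fun i => i.elim0⟩
  set s := Tuple.sort c with hs
  have hmono : Monotone (c ∘ s) := Tuple.monotone_sort c
  let r : Fin K → Fin e := fun i => ⟨i.1 % e, Nat.mod_lt _ he⟩
  have hr : ∀ i j : Fin K, i < j → r i = r j → j.1 = i.1 + e := by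
    intro i j hij h
    have h1 : i.1 % e = j.1 % e := congrArg Fin.val h
    have h2 : i.1 < j.1 := hij
    have h3 : j.1 < 2 * e := lt_of_lt_of_le j.2 hK
    obtain ⟨q, hq⟩ := (Nat.modEq_iff_dvd' h2.le).1 h1
    have hq1 : q = 1 := by
      rcases q with _ | _ | q
      · simp at hq; omega
      · rfl
      · exfalso
        have : 2 * e ≤ e * (q + 1 + 1) := by nlinarith
        omega
    subst hq1
    omega
  have hne : ∀ i j : Fin K, i < j → r i = r j → c (s i) ≠ c (s j) := by
    intro i j hij h hc
    have hj := hr i j hij h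
    have hbound := hcl (c (s i))
    have hsub : (Finset.Icc i j).map s.toEmbedding ⊆
        Finset.univ.filter fun k => c k = c (s i) := by
      intro k hk
      rw [Finset.mem_map] at hk
      obtain ⟨l, hl, rfl⟩ := hk
      rw [Finset.mem_Icc] at hl
      rw [Finset.mem_filter]
      refine ⟨Finset.mem_univ _, ?_⟩
      have h1 : c (s i) ≤ c (s l) := hmono hl.1
      have h2 : c (s l) ≤ c (s j) := hmono hl.2
      exact le_antisymm (by rw [hc]; exact h2) h1
    have hcard := Finset.card_le_card hsub
    rw [Finset.card_map, Fin.card_Icc] at hcard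
    omega
  refine ⟨fun a => r (s.symm a), ?_, ?_⟩
  · intro a b hab h
    rcases lt_trichotomy (s.symm a) (s.symm b) with h1 | h1 | h1
    · simpa using hne _ _ h1 h
    · exact absurd (s.symm.injective h1) hab
    · simpa using (hne _ _ h1 h.symm).symm
  · intro a b d h1 h2
    by_contra hcon
    push Not at hcon
    obtain ⟨hab, had, hbd⟩ := hcon
    have e1 : (s.symm a) ≠ (s.symm b) := fun h => hab (s.symm.injective h)
    have e2 : (s.symm a) ≠ (s.symm d) := fun h => had (s.symm.injective h)
    have e3 : (s.symm b) ≠ (s.symm d) := fun h => hbd (s.symm.injective h)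
    have h3 : r (s.symm b) = r (s.symm d) := h1.symm.trans h2
    have key : ∀ x y : Fin K, x ≠ y → r x = r y → x.1 = y.1 + e ∨ y.1 = x.1 + e := by
      intro x y hxy h
      rcases lt_or_gt_of_ne hxy with h' | h'
      · exact Or.inr (hr _ _ h' h)
      · exact Or.inl (hr _ _ h' h.symm)
    have k1 := key _ _ e1 h1
    have k2 := key _ _ e2 h2
    have k3 := key _ _ e3 h3
    omega

end Pool.Agent.N148.FQ
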