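import Pool.Agent.N795.SX.Stm

/-!
# The number of points in a box
-/

set_option autoImplicit false

namespace Pool.Agent.N795.SX

open Finset Filter Topology

namespace N148Box

/-- the number of points of an interval -/
theorem cnt (L : ℕ) (a b : ℝ) (ha : 0 ≤ a) (hab : a ≤ b) (hb : b ≤ 1) :
    Nat.card {x : ZMod (L + 1) // a * ((L : ℝ) + 1) ≤ (x.val : ℝ) ∧
      (x.val : ℝ) < b * ((L : ℝ) + 1)} =
      ⌈b * ((L : ℝ) + 1)⌉₊ - ⌈a * ((L : ℝ) + 1)⌉₊ := by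
  have hL : (0 : ℝ) < (L : ℝ) + 1 := by positivity
  have e : {x : ZMod (L + 1) // a * ((L : ℝ) + 1) ≤ (x.val : ℝ) ∧
      (x.val : ℝ) < b * ((L : ℝ) + 1)} ≃
      (Finset.Ico ⌈a * ((L : ℝ) + 1)⌉₊ ⌈b * ((L : ℝ) + 1)⌉₊) := by
    refine Equiv.ofBijective (fun x => ⟨x.1.val, ?_⟩) ⟨?_, ?_⟩
    · rw [Finset.mem_Ico]
      exact ⟨Nat.ceil_le.2 x.2.1, Nat.lt_ceil.2 x.2.2⟩
    · intro x y h
      apply Subtype.ext
      apply ZMod.val_injective (L + 1)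
      exact congrArg (fun z => z.1) h
    · intro y
      have hy := Finset.mem_Ico.1 y.2
      have h1 : (y.1 : ℝ) < b * ((L : ℝ) + 1) := Nat.lt_ceil.1 hy.2
      have h2 : (y.1 : ℝ) < (L : ℝ) + 1 := lt_of_lt_of_le h1 (by nlinarith)
      have h3 : y.1 < L + 1 := by exact_mod_cast h2
      have h4 : ((y.1 : ℕ) : ZMod (L + 1)).val = y.1 := ZMod.val_cast_of_lt h3
      refine ⟨⟨(y.1 : ZMod (L + 1)), ?_⟩, ?_⟩
      · rw [h4]
        exact ⟨Nat.ceil_le.1 hy.1, h1⟩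
      · apply Subtype.ext
        exact h4
  rw [Nat.card_congr e, Nat.card_eq_fintype_card, Fintype.card_coe, Nat.card_Ico]

theorem lim1 (a b : ℝ) (ha : 0 ≤ a) (hab : a ≤ b) (hb : b ≤ 1) :
    Tendsto (fun L : ℕ => (Nat.card {x : ZMod (L + 1) // a * ((L : ℝ) + 1) ≤ (x.val : ℝ) ∧
      (x.val : ℝ) < b * ((L : ℝ) + 1)} : ℝ) / ((L : ℝ) + 1)) atTop (𝓝 (b - a)) := by
  have h0 : Tendsto (fun L : ℕ => 1 / ((L : ℝ) + 1)) atTop (𝓝 0) :=
    tendsto_one_div_add_atTop_nhds_zero_nat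
  have h1 : Tendsto (fun L : ℕ => (b - a) - 1 / ((L : ℝ) + 1)) atTop (𝓝 (b - a)) := by
    simpa using (tendsto_const_nhds (x := b - a)).sub h0
  have h2 : Tendsto (fun L : ℕ => (b - a) + 1 / ((L : ℝ) + 1)) atTop (𝓝 (b - a)) := by
    simpa using (tendsto_const_nhds (x := b - a)).add h0
  refine tendsto_of_tendsto_of_tendsto_of_le_of_le h1 h2 ?_ ?_
  · intro L
    have hL : (0 : ℝ) < (L : ℝ) + 1 := by positivity
    beta_reduce
    rw [cnt L a b ha hab hb]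
    have hle : ⌈a * ((L : ℝ) + 1)⌉₊ ≤ ⌈b * ((L : ℝ) + 1)⌉₊ :=
      Nat.ceil_le_ceil (by nlinarith)
    rw [Nat.cast_sub hle]
    have h3 := Nat.le_ceil (b * ((L : ℝ) + 1))
    have h4 := Nat.ceil_lt_add_one (a := a * ((L : ℝ) + 1)) (by positivity)
    have : (b - a) - 1 / ((L : ℝ) + 1) = (b * ((L : ℝ) + 1) - (a * ((L : ℝ) + 1) + 1)) /
        ((L : ℝ) + 1) := by
      field_simp
      ring
    rw [this]
    apply div_le_div_of_nonneg_right _ hL.le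
    linarith
  · intro L
    have hL : (0 : ℝ) < (L : ℝ) + 1 := by positivity
    beta_reduce
    rw [cnt L a b ha hab hb]
    have hle : ⌈a * ((L : ℝ) + 1)⌉₊ ≤ ⌈b * ((L : ℝ) + 1)⌉₊ :=
      Nat.ceil_le_ceil (by nlinarith)
    rw [Nat.cast_sub hle]
    have h3 := Nat.le_ceil (a * ((L : ℝ) + 1))
    have h4 := Nat.ceil_lt_add_one (a := b * ((L : ℝ) + 1))
      (mul_nonneg (ha.trans hab) hL.le)
    have : (b - a) + 1 / ((L : ℝ) + 1) = ((b * ((L : ℝ) + 1) + 1) - a * ((L : ℝ) + 1)) /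
        ((L : ℝ) + 1) := by
      field_simp
      ring
    rw [this]
    apply div_le_div_of_nonneg_right _ hL.le
    linarith

end N148Box

theorem box : Box := by
  intro d a b h
  have key : ∀ L : ℕ, (Nat.card {x : Fin d → ZMod (L + 1) // ∀ i,
      a i * ((L : ℝ) + 1) ≤ ((x i).val : ℝ) ∧ ((x i).val : ℝ) < b i * ((L : ℝ) + 1)} : ℝ) /
      ((L : ℝ) + 1) ^ d = ∏ i, ((Nat.card {x : ZMod (L + 1) //
        a i * ((L : ℝ) + 1) ≤ (x.val : ℝ) ∧ (x.val : ℝ) < b i * ((L : ℝ) + 1)} : ℝ) /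
          ((L : ℝ) + 1)) := by
    intro L
    rw [Finset.prod_div_distrib, Finset.prod_const, Finset.card_univ, Fintype.card_fin]
    congr 1
    rw [Nat.card_congr (Equiv.subtypePiEquivPi (p := fun (i : Fin d) (x : ZMod (L + 1)) =>
      a i * ((L : ℝ) + 1) ≤ (x.val : ℝ) ∧ (x.val : ℝ) < b i * ((L : ℝ) + 1))), Nat.card_pi]
    push_cast
    rfl
  refine Tendsto.congr (fun L => (key L).symm) ?_
  exact tendsto_finset_prod _ fun i _ => N148Box.lim1 (a i) (b i) (h i).1 (h i).2.1 (h i).2.2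

end Pool.Agent.N795.SX
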