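import Pool.Agent.N795.SX.Stm

/-!
# Concentration of the weighted mass of the long cycles
-/

set_option autoImplicit false

namespace Pool.Agent.N795.SX

open Finset Equiv Filter Topology
open Pool.Agent.W805.LR (len cnt)
open Pool.Agent.TH268.PD (law BD)
open Pool.Agent.N795.ST (mn)

namespace N148Conc

variable {V : Type} [Fintype V] [DecidableEq V]

theorem bd [Nonempty V] (K : ℝ) (hK : 0 ≤ K) (w : V → ℝ) (hw : ∀ x, |w x| ≤ 1) :
    BD (4 * K / Fintype.card V) (fun g : Perm V =>
      (∑ x, w x * (if K ≤ len g x then 1 else 0)) / Fintype.card V) := by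
  intro g a b
  have hN : (0 : ℝ) < Fintype.card V := by exact_mod_cast Fintype.card_pos
  show |_ / _ - _ / _| ≤ _
  rw [← sub_div, abs_div, abs_of_pos hN]
  apply div_le_div_of_nonneg_right _ hN.le
  have h1 := Pool.Agent.TH268.PD.MassSwap.half g a b K hK
  have h2 := Pool.Agent.TH268.PD.MassSwap.half (g * swap a b) a b K hK
  rw [mul_assoc, swap_mul_self, mul_one] at h2
  rw [← Finset.sum_sub_distrib]
  refine (Finset.abs_sum_le_sum_abs _ _).trans ?_
  calc ∑ x, |w x * (if K ≤ len (g * swap a b) x then (1 : ℝ) else 0) -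
        w x * (if K ≤ len g x then 1 else 0)|
      ≤ cnt (fun v => K ≤ len g v ∧ len (g * swap a b) v < K) +
          cnt (fun v => K ≤ len (g * swap a b) v ∧ len g v < K) := by
        unfold cnt
        rw [← Finset.sum_add_distrib]
        refine Finset.sum_le_sum fun x _ => ?_
        rw [← mul_sub, abs_mul]
        have hx := hw x
        by_cases p : K ≤ len (g * swap a b) x <;> by_cases q : K ≤ len g x
        · simp [p, q, not_lt.2 p, not_lt.2 q]
        · simp [p, q, not_le.1 q]
          exact hx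
        · simp [p, q, not_le.1 p]
          exact hx
        · simp [p, q]
    _ ≤ 4 * K := by linarith

theorem mn_sq' {J : V → V → ℝ} (hJ : ∀ x y, 0 ≤ J x y) {t : ℝ} (ht : 0 ≤ t) (F : Perm V → ℝ) :
    mn J t F ^ 2 ≤ mn J t (fun g => F g ^ 2) := by
  have hp := Pool.Agent.TH268.PD.law_prob J t ht hJ
  have h := Finset.sum_mul_sq_le_sq_mul_sq Finset.univ (fun g => Real.sqrt (law J t g))
    (fun g => Real.sqrt (law J t g) * F g)
  have e1 : ∀ g, Real.sqrt (law J t g) * (Real.sqrt (law J t g) * F g) = law J t g * F g := by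
    intro g
    rw [← mul_assoc, Real.mul_self_sqrt (hp.1 g)]
  have e2 : ∀ g, Real.sqrt (law J t g) ^ 2 = law J t g := fun g => Real.sq_sqrt (hp.1 g)
  have e3 : ∀ g, (Real.sqrt (law J t g) * F g) ^ 2 = law J t g * F g ^ 2 := by
    intro g
    rw [mul_pow, e2 g]
  simp only [e1, e2, e3] at h
  rw [hp.2, one_mul] at h
  exact h

end N148Conc

theorem conc : Conc := by
  intro V _ _ _ J t S K w hJ ht hS hK hw
  have hN : (0 : ℝ) < Fintype.card V := by exact_mod_cast Fintype.card_pos
  obtain ⟨F, hF⟩ : ∃ F : Perm V → ℝ, F = fun g =>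
    (∑ x, w x * (if K ≤ len g x then (1 : ℝ) else 0)) / Fintype.card V := ⟨_, rfl⟩
  have hbd : BD (4 * K / Fintype.card V) F := by
    rw [hF]
    exact N148Conc.bd K hK w hw
  have hv := Pool.Agent.TH268.PD.var_law J t ht hJ _ F hbd
  obtain ⟨M, hM⟩ : ∃ M, M = mn J t F := ⟨_, rfl⟩
  have hv' : mn J t (fun g => (F g - M) ^ 2) ≤
      2 * (t * ∑ x, ∑ y, J x y / 2) * (4 * K / Fintype.card V) ^ 2 := by
    rw [hM]
    exact hv
  have hsum : ∑ x, ∑ y, J x y / 2 ≤ Fintype.card V * S / 2 := by
    calc ∑ x, ∑ y, J x y / 2 ≤ ∑ _x : V, S / 2 := by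
          refine Finset.sum_le_sum fun x _ => ?_
          rw [← Finset.sum_div]
          exact div_le_div_of_nonneg_right (hS x) (by norm_num)
      _ = Fintype.card V * S / 2 := by
          rw [Finset.sum_const, Finset.card_univ, nsmul_eq_mul]
          ring
  have hvar : mn J t (fun g => (F g - M) ^ 2) ≤ (4 * K) ^ 2 * (t * S / Fintype.card V) := by
    refine hv'.trans ?_
    have h1 : 2 * (t * ∑ x, ∑ y, J x y / 2) * (4 * K / Fintype.card V) ^ 2 ≤
        2 * (t * (Fintype.card V * S / 2)) * (4 * K / Fintype.card V) ^ 2 := by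
      apply mul_le_mul_of_nonneg_right _ (sq_nonneg _)
      apply mul_le_mul_of_nonneg_left _ (by norm_num)
      exact mul_le_mul_of_nonneg_left hsum ht
    refine h1.trans (le_of_eq ?_)
    field_simp
  have hdev : mn J t (fun g => |F g - M|) ≤ 4 * K * Real.sqrt (t * S / Fintype.card V) := by
    have h1 := N148Conc.mn_sq' hJ ht (fun g => |F g - M|)
    have h2 : (fun g => |F g - M| ^ 2) = fun g => (F g - M) ^ 2 := by
      funext g
      exact sq_abs _
    simp only [h2] at h1
    have h3 := Real.abs_le_sqrt (h1.trans hvar)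
    rw [Real.sqrt_mul (sq_nonneg _), Real.sqrt_sq (by positivity)] at h3
    exact (le_abs_self _).trans h3
  have hM' : |M| = |∑ x, w x * mn J t (fun g => if K ≤ len g x then 1 else 0)| /
      Fintype.card V := by
    have : M = (∑ x, w x * mn J t (fun g => if K ≤ len g x then 1 else 0)) /
        Fintype.card V := by
      rw [hM, hF]
      unfold mn
      have e : ∀ g : Perm V, law J t g * ((∑ x, w x * (if K ≤ len g x then (1 : ℝ) else 0)) /
          Fintype.card V) = (∑ x, law J t g * (w x * (if K ≤ len g x then (1 : ℝ) else 0))) /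
            Fintype.card V := by
        intro g
        rw [← mul_div_assoc, Finset.mul_sum]
      rw [Finset.sum_congr rfl fun g _ => e g, ← Finset.sum_div, Finset.sum_comm]
      congr 1
      refine Finset.sum_congr rfl fun x _ => ?_
      rw [Finset.mul_sum]
      refine Finset.sum_congr rfl fun g _ => ?_
      ring
    rw [this, abs_div, abs_of_pos hN]
  have hL : (fun g : Perm V => |∑ x, w x * (if K ≤ len g x then (1 : ℝ) else 0)| /
      Fintype.card V) = fun g => |F g| := by
    funext g
    rw [hF]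
    show _ = |_ / _|
    rw [abs_div, abs_of_pos hN]
  rw [hL, ← hM']
  calc mn J t (fun g => |F g|) ≤ mn J t (fun g => |M| + |F g - M|) := by
        refine Pool.Agent.N795.ST.mn_mono hJ ht fun g => ?_
        have := abs_add_le M (F g - M)
        rwa [add_sub_cancel] at this
    _ = |M| + mn J t (fun g => |F g - M|) := by
        rw [Pool.Agent.N795.ST.mn_add, Pool.Agent.N795.ST.mn_const hJ ht]
    _ ≤ |M| + 4 * K * Real.sqrt (t * S / Fintype.card V) := by linarith

end Pool.Agent.N795.SX
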